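import Pool.Agent.Q282.UZ.Pr

/-!
# MP_51fc19_nt: the regulator of regular arithmetic schemes and three-term bilinear systems

For every separated scheme `X` of finite type over `ℤ` and `k ∈ ℤ` let

* `A k X = CH_0(X, k) ⊗ ℝ` (higher Chow groups, cycles of dimension `k` on `X × Δ^k`);
* `B k X = H_k` of the homotopy fibre of the map from the real Deligne homology of weight `0` of
  `X_ℝ` to the `ℝ`-dual of the cohomology with compact supports `H_c^*(X, ℚ(0))` of weight `0`;
* `ρ k X : A k X → B k X` the regulator.

For `X` regular and connected of dimension `d`, proper and flat over `ℤ`: `A k X = M^{2d-k}`, the Deligne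
homology of weight `0` is `Dl k X = D^{2d-k}`, and the third group is `Cd X = CH^0(X_ℚ)^*_ℝ`, in one
degree. All properties used are hypotheses of the theorem.
-/

set_option autoImplicit false

open CategoryTheory AlgebraicGeometry Pool.Agent.Y116.UV Pool.Agent.Q282.UZ Pool.Agent.Q193.LT

universe w

namespace Pool.Agent.Results.MP_51fc19_nt.ThreeTermSystems

/-- The groups of the question: the comparison map `A k X → B k X`, the groups `Dl k X`, `Cd X` and the
maps `B k X → Dl k X → Cd X` (the last one for `k = 1`). -/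
structure Theories where
  /-- the comparison of `CH_0(X, k) ⊗ ℝ` with the homotopy fibre -/
  P : PairData.{w} ℤ ℤ ℝ
  /-- real Deligne cohomology `D^{2d-k}` -/
  Dl : ℤ → Sch ℤ → ModuleCat.{w} ℝ
  /-- `CH^0(X_ℚ)^*_ℝ` -/
  Cd : Sch ℤ → ModuleCat.{w} ℝ
  /-- the map from the homotopy fibre -/
  φ : ∀ k X, P.B k X ⟶ Dl k X
  /-- the map to the third group -/
  γ : ∀ X, Dl 1 X ⟶ Cd X

/-- `X` is proper, regular and connected (`Reg` is the property of being regular and connected), and flat
over `ℤ`. -/
def IsModel (Reg : Sch ℤ → Prop) (X : Sch ℤ) : Prop :=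
  FT True X ∧ IsProper X.hom ∧ Reg X ∧ Flat X.hom

/-- The known properties of the groups of a regular connected scheme `X`, proper and flat over `ℤ`: in
degrees `k ≥ 2` the homotopy fibre is `D^{2d-k}`; in degree `1` it is the kernel of the surjective map
`γ` from the finite-dimensional space `D^{2d-1}` to `CH^0(X_ℚ)^*`; in degrees `k ≤ 0` the groups
`A k X` and `B k X` are zero (`CH_0(X)` is finite). -/
structure IsFibre (T : Theories.{w}) (X : Sch ℤ) : Prop where
  high : ∀ k, 2 ≤ k → Function.Bijective (T.φ k X).hom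
  inj : Function.Injective (T.φ 1 X).hom
  exact : Function.Exact (T.φ 1 X).hom (T.γ X).hom
  surj : Function.Surjective (T.γ X).hom
  finite : Module.Finite ℝ (T.Dl 1 X)
  low : ∀ k, k ≤ 0 → Subsingleton (T.P.A k X) ∧ Subsingleton (T.P.B k X)

/-- The map `r_i : M^{2d-1-i} → D^{2d-1-i}` of the question, `k = i + 1`. -/
def r (T : Theories.{w}) (k : ℤ) (X : Sch ℤ) : T.P.A k X →ₗ[ℝ] T.Dl k X :=
  (T.φ k X).hom ∘ₗ (T.P.ρ k X).hom

/-- **The assertion of Q1 for `X`**: `r_i` is bijective for `i ≥ 1`, and there is an exact sequence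
`0 → M^{2d-1} → D^{2d-1} → CH^0(X_ℚ)^*_ℝ → 0` whose first map is `r_0`. -/
def Q1 (T : Theories.{w}) (X : Sch ℤ) : Prop :=
  (∀ k, 2 ≤ k → Function.Bijective (r T k X)) ∧ Function.Injective (r T 1 X) ∧
    ∃ g : T.Dl 1 X →ₗ[ℝ] T.Cd X, Function.Surjective g ∧ Function.Exact (r T 1 X) g

/-- For a regular connected scheme, proper and flat over `ℤ`, the assertion of Q1 says that the comparison
map is bijective in all degrees. -/
theorem q1_iff {T : Theories.{w}} {X : Sch ℤ} (h : IsFibre T X) : Q1 T X ↔ BijAll T.P X := by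
  have hfin := h.finite
  constructor
  · rintro ⟨h1, h2, g, hg, hex⟩ k
    rcases lt_trichotomy k 1 with hk | rfl | hk
    · obtain ⟨h3, h4⟩ := h.low k (by omega)
      exact ⟨fun x y _ => Subsingleton.elim x y, fun y => ⟨0, Subsingleton.elim _ _⟩⟩
    · have h5 : LinearMap.range (r T 1 X) = LinearMap.ker g := by
        ext x
        exact (hex x).symm
      have h6 : LinearMap.range (r T 1 X) ≤ LinearMap.ker (T.γ X).hom := by
        rintro _ ⟨x, rfl⟩
        exact (h.exact _).mpr ⟨_, rfl⟩
      have h7 := LinearMap.finrank_range_add_finrank_ker g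
      have h8 := LinearMap.finrank_range_add_finrank_ker (T.γ X).hom
      rw [LinearMap.range_eq_top.mpr hg, finrank_top] at h7
      rw [LinearMap.range_eq_top.mpr h.surj, finrank_top] at h8
      have h9 : LinearMap.range (r T 1 X) = LinearMap.ker (T.γ X).hom := by
        apply Submodule.eq_of_le_of_finrank_eq h6
        rw [h5]
        omega
      refine ⟨Function.Injective.of_comp (f := (T.φ 1 X).hom) h2, fun y => ?_⟩
      have h10 : (T.φ 1 X).hom y ∈ LinearMap.range (r T 1 X) := by
        rw [h9]
        exact (h.exact _).mpr ⟨y, rfl⟩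
      obtain ⟨x, hx⟩ := h10
      exact ⟨x, h.inj hx⟩
    · exact (Function.Bijective.of_comp_iff' (h.high k (by omega)) _).mp (h1 k (by omega))
  · intro hb
    refine ⟨fun k hk => (h.high k hk).comp (hb k), h.inj.comp (hb 1).1, (T.γ X).hom, h.surj, ?_⟩
    intro y
    rw [h.exact y]
    constructor
    · rintro ⟨z, rfl⟩
      obtain ⟨x, rfl⟩ := (hb 1).2 z
      exact ⟨x, rfl⟩
    · rintro ⟨x, rfl⟩
      exact ⟨_, rfl⟩

/-- **Theorem.** The following are equivalent: (a) the assertion of Q1 for all regular connected schemes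
which are proper and flat over `ℤ`, together with the bijectivity of the comparison maps for the regular
connected proper schemes which are not flat over `ℤ` (smooth proper varieties over finite fields); (b)
the comparison maps are bijective in all degrees for all separated schemes of finite type over `ℤ`; (c)
the same for the affine schemes given by systems of bilinear equations with at most three terms. -/
theorem result {T : Theories.{w}} {Reg : Sch ℤ → Prop}
    (localization : IsLocalPair T.P (Equiv.subRight 1) (Equiv.addRight 1))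
    (transfer : HasFactors T.P) (alterations : Alterations Reg)
    (fibre : ∀ X, IsModel Reg X → IsFibre T X) :
    (((∀ X, IsModel Reg X → Q1 T X) ∧
        (∀ X, FT True X → IsProper X.hom → Reg X → ¬ Flat X.hom → BijAll T.P X)) ↔
      ∀ (a b c : ℕ) (E : Fin c → Finset (Fin a × Fin b)), (∀ l, (E l).card ≤ 3) →
        BijAll T.P (sysS ℤ E)) ∧
    ((∀ X, FT True X → BijAll T.P X) ↔
      ∀ (a b c : ℕ) (E : Fin c → Finset (Fin a × Fin b)), (∀ l, (E l).card ≤ 3) →
        BijAll T.P (sysS ℤ E)) := by
  have h1 := three_iff short_int (clo_pair localization)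
  refine ⟨⟨?_, ?_⟩, h1⟩
  · rintro ⟨h2, h3⟩
    refine h1.mp (alterations _ (alt_pair localization transfer) ?_)
    intro X hX hp hr
    by_cases hf : Flat X.hom
    · exact (q1_iff (fibre X ⟨hX, hp, hr, hf⟩)).mp (h2 X ⟨hX, hp, hr, hf⟩)
    · exact h3 X hX hp hr hf
  · intro h
    exact ⟨fun X hX => (q1_iff (fibre X hX)).mpr (h1.mpr h X hX.1),
      fun X hX _ _ _ => h1.mpr h X hX⟩

end Pool.Agent.Results.MP_51fc19_nt.ThreeTermSystems
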