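import Pool.Agent.Q16.TS.Final
set_option autoImplicit false

/-!
Regulators of varieties over number fields: on the hypersurfaces
`P(z) / z ^ k = λ Q(x) / x ^ l`, where `P(z) = ∏_i P_i(z_i)` and `Q(x) = ∏_j Q_j(x_j)` are products of
cyclotomic polynomials and `λ` is a unit, there are two kinds of unramified classes in Milnor
K-theory; the regulators of the classes of both kinds together are linearly independent, if `|λ|` is
large at one place and small at another one.
-/

namespace Pool.Agent.Results.MP_51fc19_nt.TwoKindsOfClasses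

open Pool.Agent.Q16.LS (opol)

open Pool.Agent.Q16.TS

open Pool.Agent.TH826.MK (KQ symb Unramified Torus)

/-- The symbols are unramified: their images under all homomorphisms from the coordinate ring of the
open part to fields `L` lie in the unramified parts of the Milnor K-groups of `L` (they are unramified
at all discrete valuations of `L`). -/
def UnramSymb.{u, v} {K : Type u} [Field K] {s n : ℕ} (A : Side K s) (B : Side K n) (lam : K) :
    Prop :=
  ∀ (L : Type v) [Field L] (f : TOpen A B lam →+* L)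
    (κ : (∀ j, Fin (B.r j)) ⊕ (∀ i, Fin (A.r i))),
    KQ.map (n + 1 + s + 1) f (symb (sym A B lam κ)) ∈ Unramified L (n + 1 + s + 1)

/-- There are tori of dimension `n + 1 + s` in the smooth complex points over `σ` and over `σ'` of the
open part, as many as symbols (over `σ` as many as symbols of the first kind), such that the
determinant of the regulators of all the symbols on all the tori does not vanish. -/
def IndepReg {K : Type*} [Field K] {s n : ℕ} (A : Side K s) (B : Side K n) (lam : K)
    (σ σ' : K →+* ℂ) : Prop :=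
  ∃ Γ : (∀ j, Fin (B.r j)) ⊕ (∀ i, Fin (A.r i)) → Torus (TOpen A B lam) (n + 1 + s),
    (∀ t θ, ∃ (z : Fin (s + 1) → ℂ) (x : Fin (n + 1) → ℂ),
      (∀ q, (Γ t).e θ (opol _ _ q) =
        MvPolynomial.eval₂ (Sum.elim (fun _ => σ) (fun _ => σ') t) (Sum.elim z x) q) ∧
      ∃ i, MvPolynomial.eval₂ (Sum.elim (fun _ => σ) (fun _ => σ') t) (Sum.elim z x)
        (MvPolynomial.pderiv i (teqn A B lam)) ≠ 0) ∧
    (Matrix.of fun t κ => (Γ t).reg (symb (sym A B lam κ))).det ≠ 0

/-- Let `P(z) = ∏_i ∏_a g_{i,a}(z_i) ^ (v_{i,a} + 1)`, `0 ≤ i ≤ s`, and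
`Q(x) = ∏_j ∏_a h_{j,a}(x_j) ^ (w_{j,a} + 1)`, `0 ≤ j ≤ n`, be products of monic polynomials of
positive degree over the number field `K` which divide polynomials `X ^ m - 1`, `m ≥ 1`, such that for
each `i` the `r_i' + 1` polynomials `g_{i,a}` and for each `j` the `r_j + 1` polynomials `h_{j,a}` are
pairwise coprime. Let `k_i` and `l_j` be integers with `0 < k_i < deg_{z_i} P`,
`0 < l_j < deg_{x_j} Q`, `deg_{z_0} P = k_0 + 1`, `deg_{x_0} Q = l_0 + 1`, and let `σ` and `σ'` be
complex embeddings of `K`. There is a constant `C > 1` such that for all units `λ` of the ring of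
integers of `K` with `|σ λ| ≥ C` and `|σ' λ⁻¹| ≥ C` (for instance for all large powers of a unit `u`
with `|σ u| > 1 > |σ' u|`) the following holds for the affine hypersurface
`x ^ l P(z) = λ z ^ k Q(x)` of dimension `n + 1 + s`: the images of the `∏_j r_j` symbols of the first
kind
`{z_0, h_{j,κ_j+1}(x_j) ^ (deg h_{j,0}) / h_{j,0}(x_j) ^ (deg h_{j,κ_j+1}) (0 ≤ j ≤ n), z_1, ..., z_s}`,
`0 ≤ κ_j < r_j`, and of the `∏_i r_i'` symbols of the second kind
`{x_0, g_{i,κ_i+1}(z_i) ^ (deg g_{i,0}) / g_{i,0}(z_i) ^ (deg g_{i,κ_i+1}) (0 ≤ i ≤ s), x_1, ..., x_n}`,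
`0 ≤ κ_i < r_i'`, on the open part where the variables, `P(z)` and `Q(x)` do not vanish, in all fields
are unramified at all discrete valuations; and there are `∏_j r_j` tori of dimension `n + 1 + s` in
the complex points over `σ` and `∏_i r_i'` tori in the complex points over `σ'` of the open part,
consisting of smooth points, such that the determinant of the regulators of the
`∏_j r_j + ∏_i r_i'` symbols on the tori does not vanish. -/
theorem result.{u, v} (n s : ℕ) (K : Type u) [Field K] [NumberField K] (σ σ' : K →+* ℂ)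
    (A : Side K s) (B : Side K n) (hA : A.Cyc) (hB : B.Cyc) :
    ∃ C : ℝ, 1 < C ∧ ∀ lam : K, IsIntegral ℤ lam → IsIntegral ℤ lam⁻¹ → C ≤ ‖σ lam‖ →
      C ≤ ‖σ' lam⁻¹‖ → UnramSymb.{u, v} A B lam ∧ IndepReg A B lam σ σ' := by
  obtain ⟨C, hC, h⟩ := exists_tori σ σ' hA hB
  refine ⟨C, hC, fun lam h1 h2 h3 h4 => ⟨fun L _ f κ => ?_, h lam h3 h4⟩⟩
  have hl0 : lam ≠ 0 := by
    intro h0
    rw [h0, map_zero, norm_zero] at h3
    linarith
  rcases κ with κ | κ
  · exact symA_unramified f hA hB h1 hl0 κ
  · exact symB_unramified f hA hB h2 hl0 κ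

end Pool.Agent.Results.MP_51fc19_nt.TwoKindsOfClasses
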